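import Mathlib

set_option autoImplicit false

open Cardinal Set

namespace Pool.Agent.Results.MP_395df9_lc.StickNoWeaklyUniversal

/-- The set `ω₁`: the ordinals below the first uncountable ordinal. -/
abbrev Om1 : Type 1 := Set.Iio (Cardinal.aleph 1 : Cardinal.{0}).ord

/-- The stick principle: some family of `ℵ₁` countably infinite subsets of `ω₁` has the property
that every uncountable subset of `ω₁` includes a member of the family. -/
def Stick : Prop :=
  ∃ S : Set (Set Om1), #S = Cardinal.aleph 1 ∧ (∀ s ∈ S, #s = ℵ₀) ∧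
    ∀ X : Set Om1, ¬ X.Countable → ∃ s ∈ S, s ⊆ X

/-- `U : [ω₁]² → ω` is `(1, κ)`-weakly universal.  (A function on `[ω₁]²` is given by a function
on `Sym2 ω₁`, of which only the values at pairs of distinct elements are used.) -/
def WeaklyUniversal (κ : Cardinal.{0}) (U : Sym2 Om1 → ℕ) : Prop :=
  ∀ F : Sym2 Om1 → ℕ, ∃ h : Om1 → Om1, Function.Injective h ∧ ∃ e : ℕ → ℕ,
    (∀ n : ℕ, #(e ⁻¹' {n}) < κ) ∧
    ∀ α β : Om1, α ≠ β → F s(α, β) = e (U s(h α, h β))

theorem exists_injective_choice {Ω : Type*} (E : ℕ → Set Ω) (hE : ∀ n, (E n).Infinite) :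
    ∃ f : ℕ → Ω, Function.Injective f ∧ ∀ n, f n ∈ E n := by
  classical
  have key : ∀ (n : ℕ) (s : Finset Ω), ∃ y, y ∈ E n ∧ y ∉ s := fun n s =>
    (hE n).exists_notMem_finset s
  choose pick hpick1 hpick2 using key
  let g : ℕ → Finset Ω := fun n => Nat.rec ∅ (fun n s => insert (pick n s) s) n
  have hg : ∀ n, g (n + 1) = insert (pick n (g n)) (g n) := fun n => rfl
  have hmono : ∀ m n, m ≤ n → g m ⊆ g n := by
    intro m n h
    induction h with
    | refl => exact subset_rfl
    | step _ ih => exact ih.trans (by rw [hg]; exact Finset.subset_insert _ _)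
  have hlt : ∀ m n, m < n → pick m (g m) ∈ g n := by
    intro m n h
    exact hmono (m + 1) n h (by rw [hg]; exact Finset.mem_insert_self _ _)
  refine ⟨fun n => pick n (g n), ?_, fun n => hpick1 n _⟩
  intro m n hmn
  by_contra hne
  rcases lt_or_gt_of_ne hne with h | h
  · exact hpick2 n (g n) (by rw [← show pick m (g m) = pick n (g n) from hmn]; exact hlt m n h)
  · exact hpick2 m (g m) (by rw [show pick m (g m) = pick n (g n) from hmn]; exact hlt n m h)

/-- Given countably many infinite sets and, for each of them, few traces, some set avoids all the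
traces. -/
theorem exists_avoiding {Ω ι T : Type 1} (J : Set ι) (hJ : J.Countable) (D : ι → Set Ω)
    (hD : ∀ i ∈ J, (D i).Infinite) (A : ι → T → Set Ω)
    (hT : #T < Cardinal.lift.{1} (𝔠 : Cardinal.{0})) :
    ∃ Z : Set Ω, ∀ i ∈ J, ∀ t : T, Z ∩ D i ≠ A i t ∩ D i := by
  classical
  rcases J.eq_empty_or_nonempty with rfl | hne
  · exact ⟨∅, fun i hi => absurd hi (Set.notMem_empty i)⟩
  obtain ⟨idx, hidx⟩ := hJ.exists_eq_range hne
  obtain ⟨f, hfinj, hf⟩ := exists_injective_choice (fun m => D (idx (Nat.unpair m).1))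
    (fun m => hD _ (by rw [hidx]; exact Set.mem_range_self _))
  have hz : ∀ n : ℕ, ∃ z : Set ℕ, ∀ t : T, z ≠ {k | f (Nat.pair n k) ∈ A (idx n) t} := by
    intro n
    by_contra hcon
    push Not at hcon
    choose t ht using hcon
    have hinj : Function.Injective t := by
      intro z z' h
      rw [ht z, ht z', h]
    have h1 := Cardinal.mk_le_of_injective (f := fun z : ULift.{1} (Set ℕ) => t z.down)
      (fun z z' h => ULift.down_injective (hinj h))
    rw [Cardinal.mk_uLift, Cardinal.mk_set, Cardinal.mk_nat, Cardinal.two_power_aleph0] at h1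
    exact absurd h1 (not_le.2 hT)
  choose z hz using hz
  refine ⟨{x | ∃ n k, k ∈ z n ∧ x = f (Nat.pair n k)}, ?_⟩
  intro i hi t heq
  rw [hidx] at hi
  obtain ⟨n, rfl⟩ := hi
  apply hz n t
  ext k
  have hmem : f (Nat.pair n k) ∈ D (idx n) := by
    have := hf (Nat.pair n k)
    simpa using this
  have h2 := Set.ext_iff.1 heq (f (Nat.pair n k))
  simp only [Set.mem_inter_iff, hmem, and_true, Set.mem_ofPred_eq] at h2
  rw [Set.mem_ofPred_eq, ← h2]
  constructor
  · intro hk
    exact ⟨n, k, hk, rfl⟩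
  · rintro ⟨n', k', hk', he⟩
    have := hfinj he
    have h3 := congrArg Nat.unpair this
    simp only [Nat.unpair_pair, Prod.mk.injEq] at h3
    obtain ⟨rfl, rfl⟩ := h3
    exact hk'

theorem mk_om1 : #Om1 = Cardinal.aleph 1 := by
  rw [Cardinal.mk_Iio_ordinal, Cardinal.card_ord, Cardinal.lift_aleph]
  simp

theorem countable_Iio (β : Om1) : (Set.Iio β).Countable := by
  have h : (Set.Iio β.1).Countable := by
    rw [← Cardinal.le_aleph0_iff_set_countable, Cardinal.mk_Iio_ordinal]
    have h1 : β.1.card < Cardinal.aleph 1 := Cardinal.lt_ord.1 β.2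
    have h2 : β.1.card ≤ ℵ₀ := by
      have h3 : β.1.card < Order.succ ℵ₀ := by rw [Cardinal.succ_aleph0]; exact h1
      exact Order.lt_succ_iff.1 h3
    calc Cardinal.lift.{1} β.1.card ≤ Cardinal.lift.{1} ℵ₀ := Cardinal.lift_le.2 h2
      _ = ℵ₀ := Cardinal.lift_aleph0
  exact h.preimage Subtype.val_injective

theorem exists_bound (X : Set Om1) (hX : X.Countable) : ∃ β : Om1, ∀ x ∈ X, x < β := by
  by_contra hcon
  push Not at hcon
  have hcov : (Set.univ : Set Om1) ⊆ ⋃ x ∈ X, (Set.Iio x ∪ {x}) := by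
    intro β _
    obtain ⟨x, hx, hle⟩ := hcon β
    rw [Set.mem_iUnion₂]
    rcases lt_or_eq_of_le hle with h | h
    · exact ⟨x, hx, Or.inl h⟩
    · exact ⟨x, hx, Or.inr h⟩
  have hc : (Set.univ : Set Om1).Countable :=
    (hX.biUnion fun x _ => (countable_Iio x).union (Set.countable_singleton x)).mono hcov
  have h1 : #Om1 ≤ ℵ₀ := by
    rw [← Cardinal.mk_univ]
    exact (Cardinal.le_aleph0_iff_set_countable).2 hc
  rw [mk_om1] at h1
  exact absurd h1 (not_le.2 Cardinal.aleph0_lt_aleph_one)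

/-- The traces that the colouring has to avoid. -/
def trace (U : Sym2 Om1 → ℕ) (s : Set (Om1 × Om1)) (t : Om1 × Finset ℕ) : Set Om1 :=
  {α | ∃ γ, (α, γ) ∈ s ∧ U s(γ, t.1) ∈ t.2}

theorem result (hstick : Stick) (hc : (Cardinal.aleph 1 : Cardinal.{0}) < 𝔠) :
    ¬ ∃ U : Sym2 Om1 → ℕ, WeaklyUniversal ℵ₀ U := by
  classical
  rintro ⟨U, hU⟩
  obtain ⟨S, hScard, hSinf, hSguess⟩ := hstick
  -- an enumeration of the stick family by `ω₁`, transferred to `ω₁ × ω₁`
  obtain ⟨en⟩ : Nonempty (S ≃ Om1) := Cardinal.eq.1 (by rw [hScard, mk_om1])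
  obtain ⟨pr⟩ : Nonempty (Om1 × Om1 ≃ Om1) := Cardinal.eq.1 (by
    rw [Cardinal.mk_prod, Cardinal.lift_id, mk_om1]
    exact Cardinal.mul_eq_self (Cardinal.aleph0_le_aleph 1))
  let s : Om1 → Set (Om1 × Om1) := fun i => pr ⁻¹' (en.symm i : Set Om1)
  have hsinf : ∀ i, (s i).Infinite := by
    intro i hfin
    have h1 : ((en.symm i : Set Om1)).Finite := by
      have h2 := hfin.image pr
      rwa [Set.image_preimage_eq _ pr.surjective] at h2
    have h3 := hSinf _ (en.symm i).2
    have h4 : #((en.symm i : Set Om1)) < ℵ₀ := Cardinal.lt_aleph0_iff_finite.2 h1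
    rw [h3] at h4
    exact lt_irrefl _ h4
  have hscount : ∀ i, (s i).Countable := by
    intro i
    have h3 := hSinf _ (en.symm i).2
    have h4 : ((en.symm i : Set Om1)).Countable :=
      (Cardinal.le_aleph0_iff_set_countable).1 h3.le
    exact h4.preimage pr.injective
  have hsguess : ∀ X : Set (Om1 × Om1), ¬ X.Countable → ∃ i, s i ⊆ X := by
    intro X hX
    obtain ⟨t, ht, htX⟩ := hSguess (pr '' X) (fun h => hX (by
      have h2 := h.preimage pr.injective
      rwa [Set.preimage_image_eq _ pr.injective] at h2))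
    refine ⟨en ⟨t, ht⟩, ?_⟩
    intro p hp
    have h1 : pr p ∈ t := by simpa [s] using hp
    obtain ⟨q, hq, he⟩ := htX h1
    rwa [← pr.injective he]
  have hT : #(Om1 × Finset ℕ) < Cardinal.lift.{1} (𝔠 : Cardinal.{0}) := by
    rw [Cardinal.mk_prod, mk_om1]
    have h1 : #(Finset ℕ) = ℵ₀ := by simp
    rw [h1, Cardinal.lift_aleph0, Cardinal.lift_id']
    rw [Cardinal.mul_aleph0_eq (Cardinal.aleph0_le_aleph 1)]
    have := Cardinal.lift_lt.{0, 1}.2 hc
    rwa [Cardinal.lift_aleph, Ordinal.lift_one] at this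
  -- for every `β` a set escaping all the traces given by the first `β` members of the family
  have hZ : ∀ β : Om1, ∃ Z : Set Om1,
      ∀ i ∈ {i | i < β ∧ (Prod.fst '' s i ∩ Set.Iio β).Infinite}, ∀ t : Om1 × Finset ℕ,
        Z ∩ (Prod.fst '' s i ∩ Set.Iio β) ≠ trace U (s i) t ∩ (Prod.fst '' s i ∩ Set.Iio β) := by
    intro β
    refine exists_avoiding _ ?_ (fun i => Prod.fst '' s i ∩ Set.Iio β) (fun i hi => hi.2)
      (fun i t => trace U (s i) t) hT
    exact (countable_Iio β).mono fun i hi => hi.1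
  choose Z hZ using hZ
  -- the colouring
  let F : Sym2 Om1 → ℕ := fun p => if p.inf ∈ Z p.sup then 0 else 1
  obtain ⟨h, hinj, e, he, hF⟩ := hU F
  have hK : (e ⁻¹' {0}).Finite := Cardinal.lt_aleph0_iff_set_finite.1 (he 0)
  -- guess the function `h`
  obtain ⟨i, hi⟩ := hsguess {p | p.2 = h p.1} (by
    intro hcount
    have h1 := hcount.image Prod.fst
    have h2 : Prod.fst '' {p : Om1 × Om1 | p.2 = h p.1} = Set.univ := by
      ext α
      simp
    rw [h2] at h1
    obtain ⟨β, hβ⟩ := exists_bound _ h1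
    exact lt_irrefl _ (hβ β (Set.mem_univ _)))
  have hDinf : (Prod.fst '' s i).Infinite := by
    refine (hsinf i).image ?_
    intro p hp q hq hpq
    have h1 := hi hp
    have h2 := hi hq
    simp only [Set.mem_ofPred_eq] at h1 h2
    exact Prod.ext hpq (by rw [h1, h2, hpq])
  obtain ⟨β, hβ⟩ := exists_bound (insert i (Prod.fst '' s i))
    (((hscount i).image _).insert i)
  have hiβ : i < β := hβ i (Set.mem_insert _ _)
  have hDβ : Prod.fst '' s i ∩ Set.Iio β = Prod.fst '' s i := by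
    refine Set.inter_eq_left.2 fun α hα => hβ α (Set.mem_insert_of_mem _ hα)
  refine hZ β i ⟨hiβ, by rw [hDβ]; exact hDinf⟩ (h β, hK.toFinset) ?_
  rw [hDβ]
  ext α
  simp only [Set.mem_inter_iff]
  refine and_congr_left fun hα => ?_
  have hαβ : α < β := hβ α (Set.mem_insert_of_mem _ hα)
  have hval : F s(α, β) = if α ∈ Z β then 0 else 1 := by
    show (if (s(α, β) : Sym2 Om1).inf ∈ Z (s(α, β) : Sym2 Om1).sup then 0 else 1) = _
    rw [Sym2.inf_mk, Sym2.sup_mk, inf_eq_left.2 hαβ.le, sup_eq_right.2 hαβ.le]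
  have hF' := hF α β hαβ.ne
  obtain ⟨p, hp, rfl⟩ := hα
  have hp2 : p.2 = h p.1 := hi hp
  constructor
  · intro hmem
    rw [hval, if_pos hmem] at hF'
    refine ⟨p.2, hp, ?_⟩
    rw [hp2]
    simpa using hF'.symm
  · rintro ⟨γ, hγ, hmem⟩
    have hγ2 : γ = h p.1 := hi hγ
    rw [hγ2] at hmem
    have h0 : e (U s(h p.1, h β)) = 0 := by simpa using hmem
    rw [h0, hval] at hF'
    by_contra hcon
    rw [if_neg hcon] at hF'
    exact one_ne_zero hF'

end Pool.Agent.Results.MP_395df9_lc.StickNoWeaklyUniversal
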